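import Pool.Agent.H90.Clone.Defs

set_option autoImplicit false

/-!
# Trapezoids: definition
-/

namespace Pool.Agent.H45.Trap

/-- The trapezoid with the corners `o`, `o + u`, `o + v + b u`, `o + v` (for `0 ≤ b ≤ 1`): the
side from `o` to `o + u` is parallel to the side from `o + v` to `o + v + b u`. For `b = 1` it is
the parallelogram with corner `o` and side vectors `u`, `v`, for `b = 0` it is the triangle with
the corners `o`, `o + u`, `o + v`. -/
def Trap (o u v : ℂ) (b : ℝ) : Set ℂ :=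
  {z | ∃ x y : ℝ, 0 ≤ x ∧ 0 ≤ y ∧ y ≤ 1 ∧ x + (1 - b) * y ≤ 1 ∧ z = o + x * u + y * v}

/-- `u`, `v`, `b` describe an equilateral triangle or a square. -/
def TriOrSquare (u v : ℂ) (b : ℝ) : Prop :=
  (b = 0 ∧ ‖u‖ = ‖v‖ ∧ ‖u - v‖ = ‖u‖) ∨ (b = 1 ∧ ‖u‖ = ‖v‖ ∧ inner ℝ u v = 0)

end Pool.Agent.H45.Trap
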