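import Pool.Agent.H90.Clone.Unit
import Pool.Agent.H90.Clone.Area

set_option autoImplicit false

/-!
# `S(F) < 2` for every convex figure `F` near a parallelogram that is not a square
-/

namespace Pool.Agent.H45.Trap

open Pool.Agent.H90.Clone MeasureTheory Pointwise Set Complex

lemma det_ne {u v : ℂ} (h : LinearIndependent ℝ ![u, v]) : det u v ≠ 0 := by
  rw [LinearIndependent.pair_iff] at h
  intro hd
  unfold det at hd
  have h1 := h v.im (-u.im) (by
    apply Complex.ext
    · simp only [add_re, real_smul, mul_re, ofReal_re, ofReal_im, zero_re]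
      linarith
    · simp only [add_im, real_smul, mul_im, ofReal_re, ofReal_im, zero_im]
      ring)
  have h2 := h v.re (-u.re) (by
    apply Complex.ext
    · simp only [add_re, real_smul, mul_re, ofReal_re, ofReal_im, zero_re]
      ring
    · simp only [add_im, real_smul, mul_im, ofReal_re, ofReal_im, zero_im]
      linarith)
  have hu : u = 0 := by
    apply Complex.ext
    · simpa using h2.2
    · simpa using h1.2
  have h3 := h 1 0 (by rw [hu]; simp)
  exact one_ne_zero h3.1

/-- the isometry `z ↦ w * z + d` -/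
noncomputable def iso (w d : ℂ) (hw : ‖w‖ = 1) : ℂ ≃ᵢ ℂ :=
  (rotation ⟨w, mem_sphere_zero_iff_norm.mpr hw⟩).toIsometryEquiv.trans (IsometryEquiv.addRight d)

lemma iso_apply (w d : ℂ) (hw : ‖w‖ = 1) (z : ℂ) : iso w d hw z = w * z + d := rfl

lemma par_eq (o u v : ℂ) (z : ℂ) :
    z ∈ Par o u v ↔ ∃ k ∈ Cen u v, z = (o + (u + v) / 2) + k := by
  constructor
  · rintro ⟨x, y, hx0, hx1, hy0, hy1, rfl⟩
    refine ⟨((x - 1 / 2 : ℝ) : ℂ) * u + ((y - 1 / 2 : ℝ) : ℂ) * v,
      ⟨x - 1 / 2, y - 1 / 2, ?_, ?_, rfl⟩, ?_⟩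
    · rw [abs_le]; constructor <;> linarith
    · rw [abs_le]; constructor <;> linarith
    · push_cast; ring
  · rintro ⟨k, ⟨x, y, hx, hy, rfl⟩, rfl⟩
    rw [abs_le] at hx hy
    refine ⟨x + 1 / 2, y + 1 / 2, by linarith, by linarith, by linarith, by linarith, ?_⟩
    push_cast
    ring

/-- If `u`, `v` span a parallelogram that is not a square, then there is `ε > 0` such that
`S(F) < 2` for every convex figure `F` that contains it and is contained in a translate of
its homothetic image of ratio `1 + ε`. -/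
theorem par_near (o u v : ℂ) (huv : LinearIndependent ℝ ![u, v])
    (hns : ¬ (‖u‖ = ‖v‖ ∧ inner ℝ u v = 0)) :
    ∃ ε : ℝ, 0 < ε ∧ ∀ (F : Set ℂ) (o' : ℂ), IsConvexFigure F → Par o u v ⊆ F →
      F ⊆ Par o' ((1 + ε : ℝ) * u) ((1 + ε : ℝ) * v) → ∃ σ : ℝ, σ < 2 ∧ Admissible F σ := by
  have hd := det_ne huv
  have hns' : ¬ (dot u v = 0 ∧ ns u = ns v) := by
    rintro ⟨h1, h2⟩
    apply hns
    constructor
    · have e : ∀ z : ℂ, ns z = ‖z‖ ^ 2 := by
        intro z
        rw [Complex.sq_norm, Complex.normSq_apply, ns]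
        ring
      rw [e, e] at h2
      exact (sq_eq_sq₀ (norm_nonneg _) (norm_nonneg _)).mp h2
    · rw [Complex.inner]
      simp only [mul_re, conj_re, conj_im]
      unfold dot at h1
      linarith
  obtain ⟨δ, hδ, hgood⟩ := good_nonsquare hd hns'
  set ε := min 1 (δ / 2) with hε
  have hε0 : 0 < ε := by positivity
  have hε1 : ε ≤ 1 := min_le_left _ _
  have hε2 : ε ≤ δ / 2 := min_le_right _ _
  refine ⟨ε, hε0, ?_⟩
  intro F o' hF hPF hFP
  have hAF := area_pos hF
  set σ := (1 + ε) ^ 2 / (1 / 2 + δ) with hσ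
  have hσ0 : 0 < σ := by positivity
  refine ⟨σ, ?_, ?_⟩
  · rw [hσ, div_lt_iff₀ (by linarith)]
    nlinarith
  intro n G hG hsum
  choose c g hc hg using hG
  -- the scale of the container
  set s := Real.sqrt (σ / area F) with hs
  have hs0 : 0 < s := Real.sqrt_pos.mpr (by positivity)
  have hs2 : s ^ 2 = σ / area F := Real.sq_sqrt (by positivity)
  have hsum' : (∑ i, c i ^ 2) * area F = 1 := by
    rw [← hsum, Finset.sum_mul]
    apply Finset.sum_congr rfl
    intro i _
    rw [hg i, area_clone]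
  have hgd : Good u v n (fun i => (1 + ε) * c i) s := by
    apply Good.scale hs0
    apply hgood
    · intro i
      have := hc i
      positivity
    · have e1 : ∀ i, ((1 + ε) * c i / s) ^ 2 = ((1 + ε) ^ 2 / s ^ 2) * c i ^ 2 := by
        intro i
        rw [div_pow, mul_pow]
        ring
      simp only [e1]
      rw [← Finset.mul_sum]
      have e2 : ∑ i, c i ^ 2 = 1 / area F := by
        field_simp
        exact hsum'
      rw [e2, hs2, hσ]
      apply le_of_eq
      field_simp
  obtain ⟨w, b, hw, hb, hsep⟩ := hgd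
  set m : ℂ := o + (u + v) / 2 with hm
  set m' : ℂ := o' + (((1 + ε : ℝ) : ℂ) * u + ((1 + ε : ℝ) : ℂ) * v) / 2 with hm'
  -- points of F
  have hFpt : ∀ z ∈ F, ∃ k ∈ Cen u v, z = m' + ((1 + ε : ℝ) : ℂ) * k := by
    intro z hz
    obtain ⟨x, y, hx0, hx1, hy0, hy1, rfl⟩ := hFP hz
    refine ⟨((x - 1 / 2 : ℝ) : ℂ) * u + ((y - 1 / 2 : ℝ) : ℂ) * v,
      ⟨x - 1 / 2, y - 1 / 2, ?_, ?_, rfl⟩, ?_⟩
    · rw [abs_le]; constructor <;> linarith
    · rw [abs_le]; constructor <;> linarith
    · rw [hm']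
      push_cast
      ring
  have hrefl : (IsometryEquiv.refl ℂ) '' (s • F) = s • F := image_id _
  refine ⟨s • F, ⟨s, IsometryEquiv.refl ℂ, hs0, hrefl.symm⟩, ?_, ?_⟩
  · have := area_clone (IsometryEquiv.refl ℂ) (c := s) F
    rw [hrefl] at this
    rw [this, hs2]
    field_simp
  · -- the packing
    set t : Fin n → (ℂ ≃ᵢ ℂ) := fun i =>
      iso (w i) (b i + s * m - w i * ((c i : ℂ) * m')) (hw i) with ht
    have himg : ∀ i, ∀ z ∈ (t i) '' (c i • F), ∃ k ∈ Cen u v,
        z = (w i * ((((1 + ε) * c i : ℝ) : ℂ) * k) + b i) + s * m := by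
      rintro i _ ⟨_, ⟨z, hz, rfl⟩, rfl⟩
      obtain ⟨k, hk, rfl⟩ := hFpt z hz
      refine ⟨k, hk, ?_⟩
      simp only [ht, iso_apply, real_smul]
      push_cast
      ring
    have hcomp : ∀ i, ((g i).symm.trans (t i)) '' G i = (t i) '' (c i • F) := by
      intro i
      rw [hg i, image_image]
      apply image_congr
      intro z _
      simp
    refine ⟨fun i => (g i).symm.trans (t i), ?_, ?_⟩
    · intro i
      rw [hcomp i]
      intro z hz
      obtain ⟨k, hk, rfl⟩ := himg i z hz
      obtain ⟨k', hk', he⟩ := hb i k hk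
      rw [he]
      refine ⟨m + k', hPF ((par_eq o u v _).mpr ⟨k', hk', rfl⟩), ?_⟩
      simp only [real_smul]
      ring
    · intro i j hij
      simp only [hcomp]
      apply SepSets.disjoint
      obtain ⟨f, a, hf, h1, h2⟩ := hsep i j hij
      refine ⟨f, a + f (s * m), hf, ?_, ?_⟩
      · intro z hz
        obtain ⟨k, hk, rfl⟩ := himg i z hz
        rw [map_add]
        have := h1 _ ⟨k, hk, rfl⟩
        linarith
      · intro z hz
        obtain ⟨k, hk, rfl⟩ := himg j z hz
        rw [map_add]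
        have := h2 _ ⟨k, hk, rfl⟩
        linarith

end Pool.Agent.H45.Trap
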