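import Pool.Agent.H45.Trap.Shape
import Pool.Agent.H50.CP.Rot2
import Pool.Agent.H50.CP.CornerFin

set_option autoImplicit false

/-!
# Two half copies in a trapezoid

In every trapezoid `Trp β u v` with `0 < β < 1` there is room for two copies of a scale greater
than `1/2`: the copy at the left end of the shorter parallel side turns and slides down the left
side.
-/

namespace Pool.Agent.H45.Trap

open Pool.Agent.H90.Clone Pool.Agent.H21.Tri Pool.Agent.H50.CP Complex Set Pointwise Filter Topology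

variable {u v : ℂ} {β : ℝ}

lemma ip_mul_u (a b u : ℂ) : ip (a * u) (b * u) = ip u u * (a.re * b.re + a.im * b.im) := by
  simp only [ip, mul_re, mul_im]
  ring

lemma ip_self_pos (hu : u ≠ 0) : 0 < ip u u := by
  have h := Complex.normSq_pos.mpr hu
  rw [Complex.normSq_apply] at h
  exact h

lemma exists_small {f g : ℝ → ℝ} (hf : Continuous f) (hg : Continuous g) (hf0 : 0 < f 0)
    (hg0 : 0 < g 0) : ∃ δ : ℝ, 0 < δ ∧ ∀ t : ℝ, 0 < t → t < δ → 0 < f t ∧ 0 < g t := by
  have h1 : ∀ᶠ t in 𝓝 (0 : ℝ), 0 < f t := hf.continuousAt.eventually (lt_mem_nhds hf0)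
  have h2 : ∀ᶠ t in 𝓝 (0 : ℝ), 0 < g t := hg.continuousAt.eventually (lt_mem_nhds hg0)
  obtain ⟨δ, hδ, H⟩ := Metric.eventually_nhds_iff.mp (h1.and h2)
  refine ⟨δ, hδ, fun t ht ht' => H ?_⟩
  rw [Real.dist_eq, sub_zero, abs_of_pos ht]
  exact ht'

theorem two_core (hd : 0 < det u v) (hβ0 : 0 < β) (hβ1 : β < 1) (hq : ip v u < β * ip u u) :
    Two (Trp β u v) := by
  have hdn : det u v ≠ 0 := hd.ne'
  have hu : u ≠ 0 := (ne_of_det hdn).1
  set N := ip u u with hN
  have hN0 : 0 < N := ip_self_pos hu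
  obtain ⟨ρ, hρ⟩ : ∃ ρ : ℂ, v = ρ * u := ⟨v / u, (div_mul_cancel₀ v hu).symm⟩
  set p := ρ.re with hp
  set h := ρ.im with hh
  have e1 : det u v = N * h := by
    rw [hρ, hN]
    simp only [det, ip, mul_re, mul_im]
    ring
  have e2 : ip v u = N * p := by
    rw [hρ, hN]
    simp only [ip, mul_re, mul_im]
    ring
  have h0 : 0 < h := by
    rw [e1] at hd
    exact pos_of_mul_pos_right hd hN0.le
  have hqp : p < β := by
    rw [e2] at hq
    by_contra hc
    push Not at hc
    have := mul_le_mul_of_nonneg_left hc hN0.le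
    linarith
  -- the choice of the small parameter
  obtain ⟨δ, hδ, Hδ⟩ := exists_small (f := fun t : ℝ => h - t * p)
    (g := fun t : ℝ => (1 - p - t * h) / 2 - (((1 - β) / (2 * h) + t) * (h - t * p) + t * t))
    (by fun_prop) (by fun_prop) (by simpa using h0) (by
      have : (1 - β) / (2 * h) * h = (1 - β) / 2 := by field_simp
      simp only [zero_mul, sub_zero, add_zero]
      rw [this]
      linarith)
  set s := δ / 2 with hs
  have hs0 : 0 < s := by positivity
  obtain ⟨hg1, hg2⟩ := Hδ s hs0 (by rw [hs]; linarith)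
  set γ := (1 - β) / (2 * h) + s with hγ
  have hγ0 : 0 < γ := by
    have : 0 < (1 - β) / (2 * h) := div_pos (by linarith) (by linarith)
    linarith
  have hmem : ∀ x ∈ Trp β u v, ∃ X Y : ℝ, x = ((X : ℂ) + (Y : ℂ) * ρ) * u ∧ 0 ≤ X ∧ 0 ≤ Y ∧
      Y ≤ 1 ∧ X + β * Y ≤ 1 := by
    rintro x ⟨h1, h2, h3, h4⟩
    refine ⟨fx u v x, fy u v x, ?_, h1, h2, h3, h4⟩
    rw [add_mul, mul_assoc, ← hρ]
    exact comb_eq hdn x
  have mk : ∀ X Y : ℝ, 0 ≤ X → 0 ≤ Y → Y ≤ 1 → X + β * Y ≤ 1 →
      ((X : ℂ) + (Y : ℂ) * ρ) * u ∈ Trp β u v := by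
    intro X Y h1 h2 h3 h4
    have e : ((X : ℂ) + (Y : ℂ) * ρ) * u = (X : ℂ) * u + (Y : ℂ) * v := by rw [hρ]; ring
    rw [e]
    simp only [Trp, mem_ofPred_eq, fx_comb hdn, fy_comb hdn]
    exact ⟨h1, h2, h3, h4⟩
  have hvF : v ∈ Trp β u v := by
    have := mk 0 1 le_rfl zero_le_one le_rfl (by linarith)
    simpa [hρ] using this
  have huF : u ∈ Trp β u v := by
    have := mk 1 0 zero_le_one le_rfl zero_le_one (by linarith)
    simpa using this
  have h0F : (0 : ℂ) ∈ Trp β u v := by
    have := mk 0 0 le_rfl le_rfl zero_le_one (by linarith)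
    simpa using this
  have hbF : (((1 - β : ℝ) : ℂ) + ((1 : ℝ) : ℂ) * ρ) * u ∈ Trp β u v :=
    mk (1 - β) 1 (by linarith) zero_le_one le_rfl (by linarith)
  have hv' : v = (((0 : ℝ) : ℂ) + ((1 : ℝ) : ℂ) * ρ) * u := by rw [hρ]; simp
  have ipX : ∀ (X Y : ℝ) (w : ℂ), ip (((X : ℂ) + (Y : ℂ) * ρ) * u) (w * u) =
      N * (X * w.re + Y * (p * w.re + h * w.im)) := by
    intro X Y w
    rw [ip_mul_u]
    simp only [add_re, add_im, mul_re, mul_im, ofReal_re, ofReal_im, zero_mul, sub_zero, zero_add,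
      add_zero, ← hp, ← hh]
    ring
  refine rot_gain2 (p := v) (q0 := u) (d := (I - (s : ℂ)) * u) (c := (γ : ℂ) * v - (s : ℂ) * u)
    (Trp_fig hdn hβ0.le hβ1.le) hvF huF ?_ ?_ ?_ ?_ ?_
  · refine mul_ne_zero (fun hc => ?_) hu
    have := congrArg Complex.im hc
    simp at this
  · -- the separating line supports `F` at `v`
    obtain ⟨τ₀, ht0, Ht⟩ := exists_small
      (f := fun τ : ℝ => -(Complex.exp (τ * I) * (I - (s : ℂ))).re)
      (g := fun τ : ℝ => p * (Complex.exp (τ * I) * (I - (s : ℂ))).re +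
        h * (Complex.exp (τ * I) * (I - (s : ℂ))).im)
      (by fun_prop) (by fun_prop) (by simpa using hs0) (by
        simp
        linarith)
    refine ⟨τ₀, ht0, fun τ hτ hτ' x hx => ?_⟩
    obtain ⟨X, Y, rfl, hX, hY, hY1, hXY⟩ := hmem x hx
    obtain ⟨k1, k2⟩ := Ht τ hτ hτ'
    conv_rhs => rw [hv']
    rw [← mul_assoc, ipX, ipX]
    apply mul_le_mul_of_nonneg_left _ hN0.le
    nlinarith
  · rintro x hx
    obtain ⟨X, Y, rfl, hX, hY, hY1, hXY⟩ := hmem x hx
    have e3 : ip u ((I - (s : ℂ)) * u) = ip ((((1 : ℝ) : ℂ) + ((0 : ℝ) : ℂ) * ρ) * u)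
        ((I - (s : ℂ)) * u) := by simp
    rw [e3, ipX, ipX]
    apply mul_le_mul_of_nonneg_left _ hN0.le
    simp only [sub_re, sub_im, I_re, I_im, ofReal_re, ofReal_im, zero_sub, sub_zero, mul_one,
      one_mul, zero_mul, add_zero]
    have h5 : 0 ≤ Y * (h + s * (β - p)) := by
      have : 0 ≤ s * (β - p) := mul_nonneg hs0.le (by linarith)
      exact mul_nonneg hY (by linarith)
    have h6 := mul_le_mul_of_nonneg_left hXY hs0.le
    nlinarith
  · -- the gain
    have e3 : (γ : ℂ) * v - (s : ℂ) * u = (((-s : ℝ) : ℂ) + ((γ : ℝ) : ℂ) * ρ) * u := by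
      rw [hρ]
      push_cast
      ring
    have e4 : v - u = (((-1 : ℝ) : ℂ) + ((1 : ℝ) : ℂ) * ρ) * u := by
      rw [hρ]
      push_cast
      ring
    have e5 : I * ((I - (s : ℂ)) * u) = (-1 - (s : ℂ) * I) * u := by
      linear_combination u * I_mul_I
    rw [e3, e4, e5, ipX, ipX]
    simp only [sub_re, sub_im, I_re, I_im, ofReal_re, ofReal_im, zero_sub, sub_zero, mul_one,
      one_mul, zero_mul, add_zero, neg_re, neg_im, one_re, one_im, mul_re, mul_im, mul_zero]
    rw [mul_div_assoc]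
    apply mul_lt_mul_of_pos_left _ hN0
    nlinarith
  · -- the corner
    intro ν hν hsup f hf hfν
    obtain ⟨w, hw⟩ : ∃ w : ℂ, ν = w * u := ⟨ν / u, (div_mul_cancel₀ ν hu).symm⟩
    obtain ⟨X, Y, rfl, hX, hY, hY1, hXY⟩ := hmem f hf
    set A := -w.re with hA
    set B := p * w.re + h * w.im with hB
    have e3 := hsup 0 h0F
    have e4 := hsup _ hbF
    rw [hw] at e3 e4 hfν
    conv_rhs at e3 => rw [hv']
    conv_rhs at e4 => rw [hv']
    conv_rhs at hfν => rw [hv']
    have e6 : ip 0 (w * u) = 0 := by simp [ip]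
    rw [e6, ipX, ← hB] at e3
    rw [ipX, ipX, ← hB] at e4
    rw [ipX, ipX, ← hB] at hfν
    have hB0 : 0 ≤ B := by
      have : 0 ≤ N * B := by linarith
      exact nonneg_of_mul_nonneg_right this hN0
    have hA0 : 0 ≤ A := by
      have h7 : N * ((1 - β) * w.re) ≤ 0 := by linarith
      have h8 : 0 ≤ (N * (1 - β)) * A := by rw [hA]; linarith
      exact nonneg_of_mul_nonneg_right h8 (mul_pos hN0 (by linarith))
    have heq : X * A + (1 - Y) * B = 0 := by
      have h7 : N * (X * A + (1 - Y) * B) = 0 := by rw [hA]; linarith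
      rcases mul_eq_zero.mp h7 with h8 | h8
      · exact absurd h8 hN0.ne'
      · exact h8
    have hXA : X * A = 0 := by
      have h7 := mul_nonneg hX hA0
      have h8 := mul_nonneg (sub_nonneg.mpr hY1) hB0
      linarith
    have hYB : (1 - Y) * B = 0 := by linarith
    have hwi : h * w.im = B + p * A := by rw [hB, hA]; ring
    have hAB : 0 < A ∨ 0 < B := by
      by_contra hc
      push Not at hc
      have hA1 : A = 0 := le_antisymm hc.1 hA0
      have hB1 : B = 0 := le_antisymm hc.2 hB0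
      have hw0 : w = 0 := by
        apply Complex.ext
        · rw [hA] at hA1; simpa using hA1
        · rw [hA1, hB1] at hwi
          simpa [h0.ne'] using hwi
      rw [hw, hw0] at hν
      simp at hν
    have e7 : I * (((X : ℂ) + (Y : ℂ) * ρ) * u - v) =
        ((((1 - Y) * h : ℝ) : ℂ) + (((X - (1 - Y) * p) : ℝ) : ℂ) * I) * u := by
      have hρ' : ρ = (p : ℂ) + (h : ℂ) * I := by
        apply Complex.ext <;> simp [hp, hh]
      rw [hρ, hρ']
      push_cast
      linear_combination (u * ((Y : ℂ) - 1) * h) * I_mul_I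
    have e8 : (γ : ℂ) * v - (s : ℂ) * u = (((-s : ℝ) : ℂ) + ((γ : ℝ) : ℂ) * ρ) * u := by
      rw [hρ]
      push_cast
      ring
    rw [e7, hw, e8, ipX, ip_mul_u, ← hB]
    simp only [add_re, add_im, mul_re, mul_im, ofReal_re, ofReal_im, I_re, I_im, mul_zero, mul_one,
      sub_zero, add_zero, zero_add, zero_sub, sub_self]
    rw [mul_div_assoc]
    apply mul_lt_mul_of_pos_left _ hN0
    have hre : w.re = -A := by rw [hA]; ring
    rw [hre]
    have hγB : (1 - β) / 2 * B ≤ γ * h * B := by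
      have : γ * h = (1 - β) / 2 + s * h := by rw [hγ]; field_simp
      rw [this]
      nlinarith [mul_nonneg (mul_nonneg hs0.le h0.le) hB0]
    rcases eq_or_lt_of_le hA0 with hA1 | hA1
    · -- `A = 0`
      have hB1 : 0 < B := by
        rcases hAB with h7 | h7
        · linarith
        · exact h7
      have hY2 : Y = 1 := by
        rcases mul_eq_zero.mp hYB with h7 | h7
        · linarith
        · linarith
      rw [← hA1, hY2]
      rw [← hA1] at hwi
      have hX1 : X ≤ 1 - β := by rw [hY2] at hXY; linarith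
      have hwi' : w.im = B / h := by
        rw [eq_div_iff h0.ne']; linarith
      rw [hwi']
      have h9 : 0 < B / h := div_pos hB1 h0
      have h10 : γ * B = (1 - β) / 2 * (B / h) + s * B := by
        rw [hγ]; field_simp
      nlinarith [mul_pos hs0 hB1, mul_le_mul_of_nonneg_right hX1 h9.le]
    · -- `A > 0`
      have hX0 : X = 0 := by
        rcases mul_eq_zero.mp hXA with h7 | h7
        · exact h7
        · linarith
      rw [hX0]
      have h9 : (1 - Y) * (h * w.im) = (1 - Y) * (p * A) := by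
        rw [hwi]; linear_combination hYB
      have h10 : 0 ≤ (1 - Y) * A * (h ^ 2 + p ^ 2) := by
        have : 0 ≤ 1 - Y := by linarith
        positivity
      have h11 : h * ((1 - Y) * h * -A + (0 - (1 - Y) * p) * w.im) ≤ 0 := by
        have : h * ((1 - Y) * h * -A + (0 - (1 - Y) * p) * w.im) =
            -((1 - Y) * A * (h ^ 2 + p ^ 2)) := by
          linear_combination (-p) * h9
        linarith
      have h12 : (1 - Y) * h * -A + (0 - (1 - Y) * p) * w.im ≤ 0 := by
        by_contra hc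
        push Not at hc
        have := mul_pos h0 hc
        linarith
      have h13 : 0 < s * A := mul_pos hs0 hA1
      have h14 : 0 ≤ γ * B := mul_nonneg hγ0.le hB0
      nlinarith

lemma Trp_conj : refl 1 0 norm_one '' Trp β u v =
    Trp β ((starRingEnd ℂ) u) ((starRingEnd ℂ) v) := by
  have e1 : ∀ z : ℂ, fx ((starRingEnd ℂ) u) ((starRingEnd ℂ) v) ((starRingEnd ℂ) z) =
      fx u v z := by
    intro z
    rw [fx_apply, fx_apply]
    have : det ((starRingEnd ℂ) u) ((starRingEnd ℂ) v) = -det u v := by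
      simp only [det, conj_re, conj_im]
      ring
    rw [this, inv_neg]
    simp only [conj_re, conj_im]
    ring
  have e2 : ∀ z : ℂ, fy ((starRingEnd ℂ) u) ((starRingEnd ℂ) v) ((starRingEnd ℂ) z) =
      fy u v z := by
    intro z
    rw [fy_apply, fy_apply]
    have : det ((starRingEnd ℂ) u) ((starRingEnd ℂ) v) = -det u v := by
      simp only [det, conj_re, conj_im]
      ring
    rw [this, inv_neg]
    simp only [conj_re, conj_im]
    ring
  ext z
  constructor
  · rintro ⟨z, hz, rfl⟩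
    rw [refl_apply, one_mul, add_zero]
    simpa only [Trp, mem_ofPred_eq, e1, e2] using hz
  · intro hz
    refine ⟨(starRingEnd ℂ) z, ?_, by rw [refl_apply, one_mul, add_zero, conj_conj]⟩
    have h1 := e1 ((starRingEnd ℂ) z)
    have h2 := e2 ((starRingEnd ℂ) z)
    rw [conj_conj] at h1 h2
    simpa only [Trp, mem_ofPred_eq, h1, h2] using hz

lemma Trp_mirror (hd : det u v ≠ 0) : (fun z => z + u) '' Trp β (-u) (v - (β : ℂ) * u) =
    Trp β u v := by
  have hd' : det (-u) (v - (β : ℂ) * u) ≠ 0 := by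
    have : det (-u) (v - (β : ℂ) * u) = -det u v := by
      simp only [det, neg_re, neg_im, sub_re, sub_im, mul_re, mul_im, ofReal_re, ofReal_im]
      ring
    rw [this]
    exact neg_ne_zero.mpr hd
  ext z
  constructor
  · rintro ⟨w, ⟨h1, h2, h3, h4⟩, rfl⟩
    have hw := comb_eq hd' w
    set X := fx (-u) (v - (β : ℂ) * u) w
    set Y := fy (-u) (v - (β : ℂ) * u) w
    have e : w + u = ((1 - X - β * Y : ℝ) : ℂ) * u + (Y : ℂ) * v := by
      rw [hw]
      push_cast
      ring
    change w + u ∈ Trp β u v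
    rw [e]
    simp only [Trp, mem_ofPred_eq, fx_comb hd, fy_comb hd]
    exact ⟨by linarith, h2, h3, by linarith⟩
  · rintro ⟨h1, h2, h3, h4⟩
    have hz := comb_eq hd z
    set X := fx u v z
    set Y := fy u v z
    refine ⟨z - u, ?_, by simp⟩
    have e : z - u = ((1 - X - β * Y : ℝ) : ℂ) * (-u) + (Y : ℂ) * (v - (β : ℂ) * u) := by
      rw [hz]
      push_cast
      ring
    rw [e]
    simp only [Trp, mem_ofPred_eq, fx_comb hd', fy_comb hd']
    exact ⟨by linarith, h2, h3, by linarith⟩

lemma two_sign (hd : det u v ≠ 0) (hβ0 : 0 < β) (hβ1 : β < 1) (hq : ip v u < β * ip u u) :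
    Two (Trp β u v) := by
  rcases lt_or_gt_of_ne hd with h | h
  · apply two_image (Trp_fig hd hβ0.le hβ1.le) (refl 1 0 norm_one)
    rw [Trp_conj]
    apply two_core _ hβ0 hβ1
    · simpa only [ip, conj_re, conj_im, neg_mul_neg] using hq
    · have : det ((starRingEnd ℂ) u) ((starRingEnd ℂ) v) = -det u v := by
        simp only [det, conj_re, conj_im]
        ring
      rw [this]
      linarith
  · exact two_core h hβ0 hβ1 hq

/-- two copies of a scale greater than `1/2` fit into every trapezoid that is neither a triangle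
nor a parallelogram -/
theorem two_trp (hd : det u v ≠ 0) (hβ0 : 0 < β) (hβ1 : β < 1) : Two (Trp β u v) := by
  by_cases hq : ip v u < β * ip u u
  · exact two_sign hd hβ0 hβ1 hq
  · push Not at hq
    have hu : u ≠ 0 := (ne_of_det hd).1
    have hN := ip_self_pos hu
    have hd' : det (-u) (v - (β : ℂ) * u) ≠ 0 := by
      have : det (-u) (v - (β : ℂ) * u) = -det u v := by
        simp only [det, neg_re, neg_im, sub_re, sub_im, mul_re, mul_im, ofReal_re, ofReal_im]
        ring
      rw [this]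
      exact neg_ne_zero.mpr hd
    rw [← Trp_mirror hd, two_translate_iff]
    apply two_sign hd' hβ0 hβ1
    have e : ip (v - (β : ℂ) * u) (-u) = β * ip u u - ip v u := by
      simp only [ip, neg_re, neg_im, sub_re, sub_im, mul_re, mul_im, ofReal_re, ofReal_im]
      ring
    have e2 : ip (-u) (-u) = ip u u := by simp only [ip, neg_re, neg_im]; ring
    rw [e, e2]
    have : 0 < β * ip u u := mul_pos hβ0 hN
    linarith

end Pool.Agent.H45.Trap
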