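import Pool.Agent.H50.CP.CornerFin

set_option autoImplicit false

/-!
# `Two` is stable
-/

namespace Pool.Agent.H45.Trap

open Pool.Agent.H90.Clone Pool.Agent.H21.Tri Pool.Agent.H50.CP Complex Set Pointwise

/-- a copy of `T` contains a smaller copy of `F` when `F` is inside a slightly larger `T` -/
lemma copy_near {T F A : Set ℂ} {l ε : ℝ} {o' : ℂ} (hε : 0 ≤ ε) (hA : IsCopy T l A)
    (hF : F ⊆ hom o' ε T) : ∃ A' : Set ℂ, IsCopy F (l / (1 + ε)) A' ∧ A' ⊆ A := by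
  obtain ⟨g, rfl⟩ := hA
  have h1 : (1 + ε) ≠ 0 := by positivity
  set r := l / (1 + ε) with hr
  have hrl : r * (1 + ε) = l := by rw [hr]; field_simp
  refine ⟨_, ⟨(IsometryEquiv.addRight (-((r : ℂ) * o'))).trans g, rfl⟩, ?_⟩
  rintro _ ⟨_, ⟨z, hz, rfl⟩, rfl⟩
  obtain ⟨t, ht, rfl⟩ := hF hz
  refine ⟨l • t, ⟨t, ht, rfl⟩, ?_⟩
  change g (l • t) = g (r • (o' + ((1 + ε : ℝ) : ℂ) * t) + -((r : ℂ) * o'))
  congr 1
  simp only [real_smul]
  rw [← hrl]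
  push_cast
  ring

lemma copy_shift {F A : Set ℂ} {l : ℝ} (h : IsCopy F l A) (o : ℂ) :
    IsCopy F l ((fun z => z + o) '' A) := by
  obtain ⟨g, rfl⟩ := h
  refine ⟨g.trans (IsometryEquiv.addRight o), ?_⟩
  rw [image_image]
  rfl

/-- if two large copies fit in `T` then also in every figure near `T` -/
lemma two_near {T : Set ℂ} (h : Two T) : ∃ ε₀ : ℝ, 0 < ε₀ ∧ ∀ ε : ℝ, 0 ≤ ε → ε ≤ ε₀ →
    ∀ (F : Set ℂ) (o o' : ℂ), (fun z => z + o) '' T ⊆ F → F ⊆ hom o' ε T → Two F := by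
  obtain ⟨l, A, B, hl, hA, hB, hAT, hBT, hsep⟩ := h
  refine ⟨l - 1 / 2, by linarith, fun ε hε hε' F o o' hin hout => ?_⟩
  obtain ⟨A', hA', hAA⟩ := copy_near hε hA hout
  obtain ⟨B', hB', hBB⟩ := copy_near hε hB hout
  refine ⟨l / (1 + ε), (fun z => z + o) '' A', (fun z => z + o) '' B', ?_,
    copy_shift hA' o, copy_shift hB' o, ?_, ?_, ?_⟩
  · rw [lt_div_iff₀ (by linarith)]
    linarith
  · exact (image_mono (hAA.trans hAT)).trans hin
  · exact (image_mono (hBB.trans hBT)).trans hin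
  · exact sep_translate (hsep.mono hAA hBB) o

end Pool.Agent.H45.Trap
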