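import Pool.Agent.H45.Trap.Defs
import Pool.Agent.H45.Trap.Two
import Pool.Agent.H45.Trap.TwoNear
import Pool.Agent.H45.Trap.ParNear
import Pool.Agent.H84.Sq.SqTwo
import Pool.Agent.H50.CP.TriS

set_option autoImplicit false

/-!
# The clone packing constant of trapezoids: assembly
-/

namespace Pool.Agent.H45.Trap

open Pool.Agent.H90.Clone Pool.Agent.H21.Tri Pool.Agent.H50.CP Complex Set Pointwise MeasureTheory

lemma trap_zero (o u v : ℂ) : Trap o u v 0 = Tri o u v := by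
  ext z
  constructor
  · rintro ⟨x, y, h1, h2, h3, h4, rfl⟩
    exact ⟨x, y, h1, h2, by linarith, rfl⟩
  · rintro ⟨x, y, h1, h2, h3, rfl⟩
    exact ⟨x, y, h1, h2, by linarith, by linarith, rfl⟩

lemma trap_one (o u v : ℂ) : Trap o u v 1 = Par o u v := by
  ext z
  constructor
  · rintro ⟨x, y, h1, h2, h3, h4, rfl⟩
    exact ⟨x, y, h1, by linarith, h2, h3, rfl⟩
  · rintro ⟨x, y, h1, h2, h3, h4, rfl⟩
    exact ⟨x, y, h1, h3, h4, by linarith, rfl⟩

lemma trap_eq {u v : ℂ} (hd : det u v ≠ 0) (o : ℂ) (b : ℝ) :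
    Trap o u v b = (fun z => z + o) '' Trp (1 - b) u v := by
  ext z
  constructor
  · rintro ⟨x, y, h1, h2, h3, h4, rfl⟩
    refine ⟨(x : ℂ) * u + (y : ℂ) * v, ?_, by simp only []; ring⟩
    simp only [Trp, mem_ofPred_eq, fx_comb hd, fy_comb hd]
    exact ⟨h1, h2, h3, h4⟩
  · rintro ⟨w, ⟨h1, h2, h3, h4⟩, rfl⟩
    refine ⟨fx u v w, fy u v w, h1, h2, h3, h4, ?_⟩
    have := comb_eq hd w
    simp only []
    linear_combination this

lemma trap_hom {u v : ℂ} (hd : det u v ≠ 0) (o' : ℂ) (b ε : ℝ) :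
    Trap o' (((1 + ε : ℝ) : ℂ) * u) (((1 + ε : ℝ) : ℂ) * v) b = hom o' ε (Trp (1 - b) u v) := by
  ext z
  constructor
  · rintro ⟨x, y, h1, h2, h3, h4, rfl⟩
    refine ⟨(x : ℂ) * u + (y : ℂ) * v, ?_, by simp only []; ring⟩
    simp only [Trp, mem_ofPred_eq, fx_comb hd, fy_comb hd]
    exact ⟨h1, h2, h3, h4⟩
  · rintro ⟨w, ⟨h1, h2, h3, h4⟩, rfl⟩
    refine ⟨fx u v w, fy u v w, h1, h2, h3, h4, ?_⟩
    have := comb_eq hd w
    simp only []
    linear_combination ((1 + ε : ℝ) : ℂ) * this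

lemma hom_zero {T : Set ℂ} (o : ℂ) : hom o 0 T = (fun z => z + o) '' T := by
  unfold hom
  apply image_congr
  intro z _
  push_cast
  ring

/-- the statement about a figure: `S ≤ 2`, the condition for `S = 2`, and the neighbourhood -/
theorem mid_case {u v : ℂ} (hd : det u v ≠ 0) (o : ℂ) {b : ℝ} (hb0 : 0 < b) (hb1 : b < 1) :
    Admissible (Trap o u v b) 2 ∧ ∃ ε : ℝ, 0 < ε ∧ ∀ (F : Set ℂ) (o' : ℂ),
      IsConvexFigure F → Trap o u v b ⊆ F →
      F ⊆ Trap o' (((1 + ε : ℝ) : ℂ) * u) (((1 + ε : ℝ) : ℂ) * v) b →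
        ∃ σ : ℝ, σ < 2 ∧ Admissible F σ := by
  have hβ0 : 0 < 1 - b := by linarith
  have hβ1 : 1 - b < 1 := by linarith
  obtain ⟨e1, p1, H1⟩ := near_adm' (shape_trp hd hβ0.le hβ1)
  obtain ⟨e2, p2, H2⟩ := two_near (two_trp hd hβ0 hβ1)
  have hfig : IsConvexFigure (Trap o u v b) := by
    rw [trap_eq hd]
    exact fig_translate (Trp_fig hd hβ0.le hβ1.le) o
  refine ⟨?_, min e1 e2, lt_min p1 p2, fun F o' hF hin hout => ?_⟩
  · exact (H1 0 le_rfl p1.le (Trap o u v b) o o hfig (by rw [trap_eq hd]) (by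
      rw [hom_zero, trap_eq hd])).1
  · have hm : 0 ≤ min e1 e2 := (lt_min p1 p2).le
    rw [trap_eq hd] at hin
    rw [trap_hom hd] at hout
    have h1 := H1 _ hm (min_le_left _ _) F o o' hF hin hout
    exact h1.2.mpr (H2 _ hm (min_le_right _ _) F o o' hin hout)

/-- the case `b = 0` -/
theorem tri_case {u v : ℂ} (hd : det u v ≠ 0) (o : ℂ) :
    Admissible (Tri o u v) 2 ∧
    (IsLeast {S : ℝ | Admissible (Tri o u v) S} 2 ↔ (‖u‖ = ‖v‖ ∧ ‖u - v‖ = ‖u‖)) ∧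
    (¬ (‖u‖ = ‖v‖ ∧ ‖u - v‖ = ‖u‖) → ∃ ε : ℝ, 0 < ε ∧ ∀ (F : Set ℂ) (o' : ℂ),
      IsConvexFigure F → Tri o u v ⊆ F →
      F ⊆ Tri o' ((1 + ε : ℝ) * u) ((1 + ε : ℝ) * v) → ∃ σ : ℝ, σ < 2 ∧ Admissible F σ) := by
  refine ⟨admissible_two hd o, ⟨?_, ?_⟩, fun hne => near_lt hd hne o⟩
  · rintro ⟨-, hleast⟩
    by_contra hne
    obtain ⟨ε, hε, H⟩ := near_lt hd hne o
    obtain ⟨σ, hσ, hadm⟩ := H (Tri o u v) o (Tri_fig' hd o) Subset.rfl (by
      rintro _ ⟨x, y, h1, h2, h3, rfl⟩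
      refine ⟨x / (1 + ε), y / (1 + ε), by positivity, by positivity, ?_, ?_⟩
      · rw [← add_div, div_le_one (by linarith)]
        linarith
      · have h4 : ((1 + ε : ℝ) : ℂ) ≠ 0 := by
          have : (1 + ε : ℝ) ≠ 0 := by positivity
          exact_mod_cast this
        push_cast at *
        field_simp)
    have := hleast hadm
    linarith
  · rintro ⟨h1, h2⟩
    exact ⟨admissible_two hd o, fun σ hσ => equi_lower hd h1 h2 o σ hσ⟩

lemma ip_inner (u v : ℂ) : inner ℝ u v = ip u v := by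
  rw [Complex.inner]
  simp only [mul_re, conj_re, conj_im, ip]
  ring

/-- the case `b = 1` -/
theorem par_case {u v : ℂ} (huv : LinearIndependent ℝ ![u, v]) (o : ℂ) :
    Admissible (Par o u v) 2 ∧
    (IsLeast {S : ℝ | Admissible (Par o u v) S} 2 ↔ (‖u‖ = ‖v‖ ∧ inner ℝ u v = 0)) ∧
    (¬ (‖u‖ = ‖v‖ ∧ inner ℝ u v = 0) → ∃ ε : ℝ, 0 < ε ∧ ∀ (F : Set ℂ) (o' : ℂ),
      IsConvexFigure F → Par o u v ⊆ F →
      F ⊆ Par o' ((1 + ε : ℝ) * u) ((1 + ε : ℝ) * v) → ∃ σ : ℝ, σ < 2 ∧ Admissible F σ) := by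
  have hd := det_ne huv
  have hfig : IsConvexFigure (Par o u v) := by
    rw [par_translate]
    exact fig_translate (shape_par hd).fig o
  obtain ⟨e1, p1, H1⟩ := near_adm' (shape_par hd)
  have h1 := H1 0 le_rfl p1.le (Par o u v) o o hfig (by rw [← par_translate]) (by
    rw [hom_zero, ← par_translate])
  have h2 := least_iff hfig h1
  refine ⟨h1.1, ⟨fun hl => ?_, fun hs => ?_⟩, fun hne => par_near o u v huv hne⟩
  · by_contra hne
    obtain ⟨ε, hε, H⟩ := par_near o u v huv hne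
    obtain ⟨σ, hσ, hadm⟩ := H (Par o u v) o hfig Subset.rfl (by
      rintro _ ⟨x, y, h1, h2, h3, h4, rfl⟩
      refine ⟨x / (1 + ε), y / (1 + ε), by positivity, ?_, by positivity, ?_, ?_⟩
      · rw [div_le_one (by linarith)]
        linarith
      · rw [div_le_one (by linarith)]
        linarith
      · have h4 : ((1 + ε : ℝ) : ℂ) ≠ 0 := by
          have : (1 + ε : ℝ) ≠ 0 := by positivity
          exact_mod_cast this
        push_cast at *
        field_simp)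
    have := hl.2 hadm
    linarith
  · rw [h2.2, twoFit_iff hfig]
    refine Pool.Agent.H84.Sq.sq_not_two ⟨o, u, v, (ne_of_det hd).1, hs.1, ?_, rfl⟩
    rw [← ip_inner]
    exact hs.2

theorem trap_main (o u v : ℂ) (b : ℝ) (huv : LinearIndependent ℝ ![u, v]) (hb0 : 0 ≤ b)
    (hb1 : b ≤ 1) :
    Admissible (Trap o u v b) 2 ∧
    (IsLeast {S : ℝ | Admissible (Trap o u v b) S} 2 ↔ TriOrSquare u v b) ∧
    (¬ TriOrSquare u v b → ∃ ε : ℝ, 0 < ε ∧ ∀ (F : Set ℂ) (o' : ℂ),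
      IsConvexFigure F → Trap o u v b ⊆ F →
      F ⊆ Trap o' ((1 + ε : ℝ) * u) ((1 + ε : ℝ) * v) b → ∃ σ : ℝ, σ < 2 ∧ Admissible F σ) := by
  have hd := det_ne huv
  rcases eq_or_lt_of_le hb0 with h0 | h0
  · subst h0
    have e : TriOrSquare u v 0 ↔ (‖u‖ = ‖v‖ ∧ ‖u - v‖ = ‖u‖) := by
      simp [TriOrSquare]
    rw [e]
    simp only [trap_zero]
    exact tri_case hd o
  rcases eq_or_lt_of_le hb1 with h1 | h1
  · subst h1
    have e : TriOrSquare u v 1 ↔ (‖u‖ = ‖v‖ ∧ inner ℝ u v = 0) := by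
      simp [TriOrSquare]
    rw [e]
    simp only [trap_one]
    exact par_case huv o
  have e : ¬ TriOrSquare u v b := by
    rintro (⟨h, -⟩ | ⟨h, -⟩)
    · linarith
    · linarith
  obtain ⟨h2, ε, hε, H⟩ := mid_case hd o h0 h1
  refine ⟨h2, ⟨fun hl => ?_, fun h => absurd h e⟩, fun _ => ⟨ε, hε, H⟩⟩
  exfalso
  obtain ⟨σ, hσ, hadm⟩ := H (Trap o u v b) o (by
    rw [trap_eq hd]
    exact fig_translate (Trp_fig hd (by linarith) (by linarith)) o) Subset.rfl (by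
    rintro _ ⟨x, y, h1, h2, h3, h4, rfl⟩
    refine ⟨x / (1 + ε), y / (1 + ε), by positivity, by positivity, ?_, ?_, ?_⟩
    · rw [div_le_one (by linarith)]
      linarith
    · have e3 : x / (1 + ε) + (1 - b) * (y / (1 + ε)) = (x + (1 - b) * y) / (1 + ε) := by ring
      rw [e3, div_le_one (by linarith)]
      linarith
    · have h4 : ((1 + ε : ℝ) : ℂ) ≠ 0 := by
        have : (1 + ε : ℝ) ≠ 0 := by positivity
        exact_mod_cast this
      push_cast at *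
      field_simp)
  have := hl.2 hadm
  linarith

end Pool.Agent.H45.Trap
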