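import Pool.Agent.H21.Tri.Final

set_option autoImplicit false

/-!
# The row algorithm for trapezoids

`Trp β u v` is the trapezoid with the corners `0`, `u`, `v`, `v + (1 - β) u`; `β = 0` is a
parallelogram, `β = 1` a triangle.  In a row upright and inverted copies alternate; their slanted
sides fit together exactly.
-/

namespace Pool.Agent.H45.Trap

open Pool.Agent.H90.Clone Pool.Agent.H21.Tri Complex Set Pointwise

/-- The trapezoid with bottom side from `0` to `u`, left side from `0` to `v` and top side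
`(1 - β) u`. -/
def Trp (β : ℝ) (u v : ℂ) : Set ℂ :=
  {z | 0 ≤ fx u v z ∧ 0 ≤ fy u v z ∧ fy u v z ≤ 1 ∧ fx u v z + β * fy u v z ≤ 1}

variable {u v : ℂ} {β : ℝ}

lemma mem_smul_Trp {c : ℝ} (hc : 0 < c) (z : ℂ) :
    z ∈ c • Trp β u v ↔ 0 ≤ fx u v z ∧ 0 ≤ fy u v z ∧ fy u v z ≤ c ∧
      fx u v z + β * fy u v z ≤ c := by
  rw [mem_smul_set_iff_inv_smul_mem₀ hc.ne']
  simp only [Trp, mem_setOf_eq, map_smul, smul_eq_mul]
  have hi : 0 < c⁻¹ := inv_pos.mpr hc
  have e3 : c⁻¹ * fy u v z ≤ 1 ↔ fy u v z ≤ c := by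
    rw [inv_mul_le_iff₀ hc, mul_one]
  have e4 : c⁻¹ * fx u v z + β * (c⁻¹ * fy u v z) ≤ 1 ↔ fx u v z + β * fy u v z ≤ c := by
    have : c⁻¹ * fx u v z + β * (c⁻¹ * fy u v z) = c⁻¹ * (fx u v z + β * fy u v z) := by ring
    rw [this, inv_mul_le_iff₀ hc, mul_one]
  rw [e3, e4]
  constructor
  · rintro ⟨h1, h2, h3, h4⟩
    exact ⟨nonneg_of_mul_nonneg_right h1 hi, nonneg_of_mul_nonneg_right h2 hi, h3, h4⟩
  · rintro ⟨h1, h2, h3, h4⟩
    exact ⟨mul_nonneg hi.le h1, mul_nonneg hi.le h2, h3, h4⟩

/-- upright copy -/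
def UpT (β : ℝ) (u v : ℂ) (p q c : ℝ) : Set ℂ :=
  {z | p ≤ fx u v z ∧ q ≤ fy u v z ∧ fy u v z ≤ q + c ∧
    fx u v z + β * fy u v z ≤ p + β * q + c}

/-- inverted copy -/
def DownT (β : ℝ) (u v : ℂ) (p q c : ℝ) : Set ℂ :=
  {z | fx u v z ≤ p ∧ q ≤ fy u v z ∧ fy u v z ≤ q + c ∧
    p + β * (q + c) - c ≤ fx u v z + β * fy u v z}

lemma copy_upT (h : det u v ≠ 0) {c : ℝ} (hc : 0 < c) (p q : ℝ) :
    IsCopy (Trp β u v) c (UpT β u v p q c) := by
  refine ⟨IsometryEquiv.addRight ((p : ℂ) * u + (q : ℂ) * v), ?_⟩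
  ext z
  have hX := fx_comb h p q
  have hY := fy_comb h p q
  constructor
  · rintro ⟨h1, h2, h3, h4⟩
    refine ⟨z - ((p : ℂ) * u + (q : ℂ) * v), ?_, by simp⟩
    rw [mem_smul_Trp hc, map_sub, map_sub, hX, hY]
    exact ⟨by linarith, by linarith, by linarith, by linarith⟩
  · rintro ⟨w, hw, rfl⟩
    rw [mem_smul_Trp hc] at hw
    obtain ⟨h1, h2, h3, h4⟩ := hw
    have e1 := map_add (fx u v) w ((p : ℂ) * u + (q : ℂ) * v)
    have e2 := map_add (fy u v) w ((p : ℂ) * u + (q : ℂ) * v)
    rw [hX] at e1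
    rw [hY] at e2
    change p ≤ fx u v (w + ((p : ℂ) * u + (q : ℂ) * v)) ∧
      q ≤ fy u v (w + ((p : ℂ) * u + (q : ℂ) * v)) ∧
      fy u v (w + ((p : ℂ) * u + (q : ℂ) * v)) ≤ q + c ∧
      fx u v (w + ((p : ℂ) * u + (q : ℂ) * v)) +
        β * fy u v (w + ((p : ℂ) * u + (q : ℂ) * v)) ≤ p + β * q + c
    rw [e1, e2]
    exact ⟨by linarith, by linarith, by linarith, by linarith⟩

lemma copy_downT (h : det u v ≠ 0) {c : ℝ} (hc : 0 < c) (p q : ℝ) :
    IsCopy (Trp β u v) c (DownT β u v p q c) := by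
  refine ⟨(IsometryEquiv.neg ℂ).trans
    (IsometryEquiv.addRight ((p : ℂ) * u + ((q + c : ℝ) : ℂ) * v)), ?_⟩
  ext z
  have hX := fx_comb h p (q + c)
  have hY := fy_comb h p (q + c)
  constructor
  · rintro ⟨h1, h2, h3, h4⟩
    refine ⟨((p : ℂ) * u + ((q + c : ℝ) : ℂ) * v) - z, ?_, by simp⟩
    rw [mem_smul_Trp hc, map_sub, map_sub, hX, hY]
    exact ⟨by linarith, by linarith, by linarith, by linarith⟩
  · rintro ⟨w, hw, rfl⟩
    rw [mem_smul_Trp hc] at hw
    obtain ⟨h1, h2, h3, h4⟩ := hw
    have e1 := map_add (fx u v) (-w) ((p : ℂ) * u + ((q + c : ℝ) : ℂ) * v)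
    have e2 := map_add (fy u v) (-w) ((p : ℂ) * u + ((q + c : ℝ) : ℂ) * v)
    rw [hX, map_neg] at e1
    rw [hY, map_neg] at e2
    change fx u v (-w + ((p : ℂ) * u + ((q + c : ℝ) : ℂ) * v)) ≤ p ∧
      q ≤ fy u v (-w + ((p : ℂ) * u + ((q + c : ℝ) : ℂ) * v)) ∧
      fy u v (-w + ((p : ℂ) * u + ((q + c : ℝ) : ℂ) * v)) ≤ q + c ∧
      p + β * (q + c) - c ≤ fx u v (-w + ((p : ℂ) * u + ((q + c : ℝ) : ℂ) * v)) +
        β * fy u v (-w + ((p : ℂ) * u + ((q + c : ℝ) : ℂ) * v))
    rw [e1, e2]
    exact ⟨by linarith, by linarith, by linarith, by linarith⟩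

lemma SB_ne (h : det u v ≠ 0) (β : ℝ) : fx u v + β • fy u v ≠ 0 := by
  intro h0
  have h1 : (fx u v + β • fy u v) ((1 : ℝ) * u + (0 : ℝ) * v) = 1 := by
    rw [_root_.add_apply, _root_.smul_apply, fx_comb h, fy_comb h]
    simp
  rw [h0] at h1
  simp at h1

lemma sepB (h : det u v ≠ 0) {A B : Set ℂ} (t : ℝ)
    (hA : ∀ z ∈ A, fx u v z + β * fy u v z ≤ t) (hB : ∀ z ∈ B, t ≤ fx u v z + β * fy u v z) :
    SepSets A B := ⟨fx u v + β • fy u v, t, SB_ne h β, hA, hB⟩

/-- the region to the right of an upright copy in a row -/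
def RegT (β : ℝ) (u v : ℂ) (x s b H S : ℝ) : Set ℂ :=
  {z | x ≤ fx u v z ∧ s ≤ fx u v z + β * fy u v z ∧ b ≤ fy u v z ∧ fy u v z ≤ b + H ∧
    fx u v z + β * fy u v z ≤ S}

/-- a container -/
def TrapR (β : ℝ) (u v : ℂ) (a b l t : ℝ) : Set ℂ :=
  {z | a ≤ fx u v z ∧ b ≤ fy u v z ∧ fy u v z ≤ b + t ∧
    fx u v z + β * fy u v z ≤ a + β * b + l}

/-- One row, after an upright copy of size `h` with left corner at `(x, b)`. -/
lemma rowT (hd : det u v ≠ 0) (hβ0 : 0 ≤ β) (hβ1 : β ≤ 1) : ∀ (k : ℕ) (L : List ℝ),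
    L.length ≤ k → L.Pairwise (fun a b => b ≤ a) →
    (∀ c ∈ L, 0 < c) → ∀ (x h b H S : ℝ), (∀ c ∈ L, c ≤ h) → h ≤ H →
    ∃ r m : List ℝ, L = r ++ m ∧ Pack (Trp β u v) (RegT β u v x (x + β * b + h) b H S) r ∧
      (m = [] ∨ ∃ y m', m = y :: m' ∧ 2 * y * (S - β * b - x - h - y) ≤ (2 - β) * sqs r) := by
  intro k
  induction k using Nat.strong_induction_on with
  | _ k ih =>
  intro L hlen hs hpos x h b H S hh hH
  cases L with
  | nil => exact ⟨[], [], rfl, Pack.nil _, Or.inl rfl⟩
  | cons z1 L =>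
    have hz1 : 0 < z1 := hpos z1 (by simp)
    have hz1h : z1 ≤ h := hh z1 (by simp)
    have hβz1 : β * z1 ≤ z1 := by nlinarith
    have hβz0 : 0 ≤ β * z1 := by positivity
    by_cases hfit : x + h + z1 + β * b ≤ S
    swap
    · refine ⟨[], z1 :: L, rfl, Pack.nil _, Or.inr ⟨z1, L, rfl, ?_⟩⟩
      rw [sqs_nil]
      push Not at hfit
      nlinarith
    · -- the inverted copy
      have hc1 := copy_downT (β := β) hd hz1 (x + h + (1 - β) * z1) b
      have hb1 : ∀ z ∈ DownT β u v (x + h + (1 - β) * z1) b z1, x ≤ fx u v z ∧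
          fx u v z ≤ x + h + (1 - β) * z1 ∧
          x + β * b + h ≤ fx u v z + β * fy u v z ∧ b ≤ fy u v z ∧ fy u v z ≤ b + H ∧
          fx u v z + β * fy u v z ≤ S := by
        rintro z ⟨h1, h2, h3, h4⟩
        have h5 := mul_le_mul_of_nonneg_left h3 hβ0
        refine ⟨by linarith, by linarith, by linarith, by linarith, by linarith, by linarith⟩
      cases L with
      | nil =>
        refine ⟨[z1], [], rfl, Pack.single hc1 ?_, Or.inl rfl⟩
        intro z hz
        obtain ⟨e1, e2, e3, e4, e5, e6⟩ := hb1 z hz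
        exact ⟨e1, e3, e4, e5, e6⟩
      | cons z2 L =>
        have hz2 : 0 < z2 := hpos z2 (by simp)
        rw [List.pairwise_cons, List.pairwise_cons] at hs
        obtain ⟨hs1, hs2, hs3⟩ := hs
        have hz21 : z2 ≤ z1 := hs1 z2 (by simp)
        by_cases hfit2 : x + h + (1 - β) * z1 + z2 + β * b ≤ S
        swap
        · -- the next upright copy does not fit
          refine ⟨[z1], z2 :: L, rfl, Pack.single hc1 ?_, Or.inr ⟨z2, L, rfl, ?_⟩⟩
          · intro z hz
            obtain ⟨e1, e2, e3, e4, e5, e6⟩ := hb1 z hz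
            exact ⟨e1, e3, e4, e5, e6⟩
          · rw [sqs_cons, sqs_nil]
            push Not at hfit2
            have e1 : S - β * b - x - h - z2 ≤ (1 - β) * z1 := by linarith
            have e2 : 2 * z2 * (S - β * b - x - h - z2) ≤ 2 * z2 * ((1 - β) * z1) :=
              mul_le_mul_of_nonneg_left e1 (by linarith)
            have e3 : z2 * ((1 - β) * z1) ≤ z1 * ((1 - β) * z1) :=
              mul_le_mul_of_nonneg_right hz21 (mul_nonneg (by linarith) hz1.le)
            have e4 : 0 ≤ β * z1 ^ 2 := by positivity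
            nlinarith
        · obtain ⟨r, m, hrm, hp, hm⟩ := ih (k - 1) (by simp at hlen; omega) L
            (by simp at hlen; omega) hs3
            (fun c hc => hpos c (by simp [hc])) (x + h + (1 - β) * z1) z2 b H S hs2 (by linarith)
          have hc2 := copy_upT (β := β) hd hz2 (x + h + (1 - β) * z1) b
          have hb2 : ∀ z ∈ UpT β u v (x + h + (1 - β) * z1) b z2,
              x + h + (1 - β) * z1 ≤ fx u v z ∧
              fx u v z + β * fy u v z ≤ x + h + (1 - β) * z1 + β * b + z2 ∧ b ≤ fy u v z ∧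
              fy u v z ≤ b + z2 := by
            rintro z ⟨h1, h2, h3, h4⟩
            exact ⟨by linarith, by linarith, by linarith, by linarith⟩
          have hP : x + h ≤ x + h + (1 - β) * z1 := by nlinarith
          refine ⟨z1 :: z2 :: r, m, by rw [hrm]; rfl, ?_, ?_⟩
          · have hR : Pack (Trp β u v) {z | x + h + (1 - β) * z1 ≤ fx u v z ∧
                x + β * b + h ≤ fx u v z + β * fy u v z ∧ b ≤ fy u v z ∧ fy u v z ≤ b + H ∧
                fx u v z + β * fy u v z ≤ S} (z2 :: r) := by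
              apply Pack.cons hc2 hp
              · exact sepB hd (x + h + (1 - β) * z1 + β * b + z2)
                  (fun z hz => (hb2 z hz).2.1) (fun z hz => hz.2.1)
              · intro z hz
                obtain ⟨e1, e2, e3, e4⟩ := hb2 z hz
                have e5 := mul_le_mul_of_nonneg_left e3 hβ0
                exact ⟨e1, by linarith, e3, by linarith, by linarith⟩
              · rintro z ⟨e1, e2, e3, e4, e5⟩
                exact ⟨e1, by linarith, e3, e4, e5⟩
            apply Pack.cons hc1 hR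
            · exact sepX hd (x + h + (1 - β) * z1) (fun z hz => (hb1 z hz).2.1)
                (fun z hz => hz.1)
            · intro z hz
              obtain ⟨e1, e2, e3, e4, e5, e6⟩ := hb1 z hz
              exact ⟨e1, e3, e4, e5, e6⟩
            · rintro z ⟨e1, e2, e3, e4, e5⟩
              exact ⟨by linarith, e2, e3, e4, e5⟩
          · rcases hm with hm | ⟨y, m', hm, hy⟩
            · exact Or.inl hm
            · refine Or.inr ⟨y, m', hm, ?_⟩
              have hyL : y ∈ L := by rw [hrm, hm]; simp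
              have hy0 : 0 < y := hpos y (by simp [hyL])
              have hy2 : y ≤ z2 := hs2 y hyL
              rw [sqs_cons, sqs_cons]
              -- 2 y ((1-β) z1 + z2) ≤ (2-β) (z1² + z2²)
              have a1 : y * ((1 - β) * z1 + z2) ≤ z2 * ((1 - β) * z1 + z2) :=
                mul_le_mul_of_nonneg_right hy2 (by nlinarith)
              have a2 : 0 ≤ (1 - β) * (z1 - z2) ^ 2 := mul_nonneg (by linarith) (sq_nonneg _)
              have a3 : z2 ^ 2 ≤ z1 ^ 2 := by nlinarith
              nlinarith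

/-- The rows. -/
theorem rowsT (hd : det u v ≠ 0) (hβ0 : 0 ≤ β) (hβ1 : β ≤ 1) : ∀ (k : ℕ) (L : List ℝ),
    L.length ≤ k →
    L.Pairwise (fun a b => b ≤ a) → (∀ c ∈ L, 0 < c) → ∀ (a b l t : ℝ), t ≤ l →
    (∀ y L', L = y :: L' → y ≤ t ∧
      (2 - β) * sqs L ≤ (2 - β) * y ^ 2 + (t - y) * (2 * l - β * t - (2 - β) * y)) →
    Pack (Trp β u v) (TrapR β u v a b l t) L := by
  intro k
  induction k with
  | zero =>
    intro L hlen _ _ a b l t _ _
    rw [List.length_eq_zero_iff.mp (Nat.le_zero.mp hlen)]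
    exact Pack.nil _
  | succ k ih =>
    intro L hlen hs hpos a b l t htl hL
    cases L with
    | nil => exact Pack.nil _
    | cons h L =>
      obtain ⟨hht, hsum⟩ := hL h L rfl
      have hh : 0 < h := hpos h (by simp)
      rw [List.pairwise_cons] at hs
      obtain ⟨hs1, hs2⟩ := hs
      obtain ⟨r, m, hrm, hp, hm⟩ := rowT hd hβ0 hβ1 L.length L le_rfl hs2
        (fun c hc => hpos c (by simp [hc])) a h b h (a + β * b + l) hs1 le_rfl
      have hc := copy_upT (β := β) hd hh a b
      -- the first row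
      have hrow : Pack (Trp β u v) {z | a ≤ fx u v z ∧ b ≤ fy u v z ∧ fy u v z ≤ b + h ∧
          fx u v z + β * fy u v z ≤ a + β * b + l} (h :: r) := by
        apply Pack.cons hc hp
        · exact sepB hd (a + β * b + h) (fun z hz => hz.2.2.2) (fun z hz => hz.2.1)
        · rintro z ⟨e1, e2, e3, e4⟩
          exact ⟨e1, e2, by linarith, by linarith⟩
        · rintro z ⟨e1, e2, e3, e4, e5⟩
          exact ⟨e1, e3, e4, e5⟩
      have hβh : β * h ≤ h := by nlinarith
      rcases hm with hm | ⟨y, m', hm, hy⟩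
      · subst hm
        rw [List.append_nil] at hrm
        subst hrm
        apply hrow.mono
        rintro z ⟨e1, e2, e3, e4⟩
        exact ⟨e1, e2, by linarith, e4⟩
      · have hyL : y ∈ L := by rw [hrm, hm]; simp
        have hy0 : 0 < y := hpos y (by simp [hyL])
        have hyh : y ≤ h := hs1 y hyL
        rw [sqs_cons, hrm, sqs_append] at hsum
        have hr0 := sqs_nonneg r
        have hm0 := sqs_nonneg m'
        have hmy : sqs m = y ^ 2 + sqs m' := by rw [hm, sqs_cons]
        have hS : (2 - β) * sqs r + (2 - β) * sqs m ≤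
            (t - h) * (2 * l - β * t - (2 - β) * h) := by nlinarith
        have hy' : 2 * y * (l - h - y) ≤ (2 - β) * sqs r := by
          have : a + β * b + l - β * b - a - h - y = l - h - y := by ring
          rw [this] at hy
          exact hy
        have hmm : (2 - β) * y ^ 2 ≤ (2 - β) * sqs m := by
          rw [hmy]
          nlinarith
        have hyt : y ≤ t - h := by
          by_contra hcon
          push Not at hcon
          have hT0 : 0 ≤ t - h := by linarith
          set T := t - h with hT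
          have et : t = T + h := by rw [hT]; ring
          have e0 : T * (2 * l - β * t - (2 - β) * h) = T * (2 * (l - h) - β * T) := by
            rw [et]; ring
          rw [e0] at hS
          by_cases hyl : y ≤ l - h
          · -- y (2 (l-h) - β y) ≤ T (2 (l-h) - β T) with T < y ≤ l - h
            have e1 : y * (2 * (l - h) - β * y) ≤ T * (2 * (l - h) - β * T) := by nlinarith
            have e2 : (y - T) * (2 * (l - h) - β * (y + T)) ≤ 0 := by nlinarith
            have e3 : 0 < 2 * (l - h) - β * (y + T) := by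
              have : β * (y + T) ≤ y + T := by nlinarith
              linarith
            have := mul_pos (sub_pos.mpr hcon) e3
            linarith
          · push Not at hyl
            have hrr : 0 ≤ (2 - β) * sqs r := mul_nonneg (by linarith) hr0
            have e1 : (2 - β) * y ^ 2 ≤ T * (2 * (l - h) - β * T) := by linarith
            have e2 : T * (2 * (l - h) - β * T) ≤ T * (2 * y - β * T) :=
              mul_le_mul_of_nonneg_left (by linarith) hT0
            -- T (2 y - β T) < (2 - β) y²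
            have e3 : 0 < (y - T) * ((2 - β) * y - β * T) := by
              apply mul_pos (by linarith)
              nlinarith
            nlinarith
        have hpm : Pack (Trp β u v) (TrapR β u v a (b + h) (l - β * h) (t - h)) m := by
          apply ih m
          · rw [hrm] at hlen
            simp at hlen
            omega
          · rw [hrm, List.pairwise_append] at hs2
            exact hs2.2.1
          · intro c hc
            exact hpos c (by rw [hrm]; simp [hc])
          · linarith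
          · intro y' L' he
            have : y' = y := by
              rw [hm] at he
              exact (List.cons.inj he).1.symm
            subst this
            refine ⟨hyt, ?_⟩
            have e1 : 0 ≤ (1 - β) * ((h - y') * (t - h - y')) :=
              mul_nonneg (by linarith) (mul_nonneg (by linarith) (by linarith))
            nlinarith
        rw [hrm, ← List.cons_append]
        apply Pack.append hrow hpm
        · exact sepY hd (b + h) (fun z hz => hz.2.2.1) (fun z hz => hz.2.1)
        · rintro z ⟨e1, e2, e3, e4⟩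
          exact ⟨e1, e2, by linarith, e4⟩
        · rintro z ⟨e1, e2, e3, e4⟩
          exact ⟨e1, by linarith, by linarith, by linarith⟩

end Pool.Agent.H45.Trap
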