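import Pool.Agent.H45.Trap.Rows
import Pool.Agent.H50.CP.Fin

set_option autoImplicit false

/-!
# Trapezoids satisfy the packing hypotheses of `Shape`
-/

namespace Pool.Agent.H45.Trap

open Pool.Agent.H90.Clone Pool.Agent.H21.Tri Pool.Agent.H50.CP Complex Set Pointwise

variable {u v : ℂ} {β : ℝ}

/-- One row, after an inverted copy with right side `X = P`. -/
lemma rowI (hd : det u v ≠ 0) (hβ0 : 0 ≤ β) (hβ1 : β ≤ 1) (L : List ℝ)
    (hs : L.Pairwise (fun a b => b ≤ a)) (hpos : ∀ c ∈ L, 0 < c) (P b H S : ℝ)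
    (hH : ∀ c ∈ L, c ≤ H) :
    ∃ r m : List ℝ, L = r ++ m ∧ Pack (Trp β u v) {z | P ≤ fx u v z ∧ b ≤ fy u v z ∧
      fy u v z ≤ b + H ∧ fx u v z + β * fy u v z ≤ S} r ∧
      (m = [] ∨ ∃ y m', m = y :: m' ∧
        2 * y * (S - β * b - P) - (2 + β) * y ^ 2 ≤ (2 - β) * sqs r) := by
  cases L with
  | nil => exact ⟨[], [], rfl, Pack.nil _, Or.inl rfl⟩
  | cons z L =>
    have hz : 0 < z := hpos z (by simp)
    have hzH : z ≤ H := hH z (by simp)
    rw [List.pairwise_cons] at hs
    obtain ⟨hs1, hs2⟩ := hs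
    by_cases hfit : P + β * b + z ≤ S
    · obtain ⟨r, m, hrm, hp, hm⟩ := rowT hd hβ0 hβ1 L.length L le_rfl hs2
        (fun c hc => hpos c (by simp [hc])) P z b H S hs1 hzH
      refine ⟨z :: r, m, by rw [hrm]; rfl, ?_, ?_⟩
      · apply Pack.cons (copy_upT (β := β) hd hz P b) hp
        · exact sepB hd (P + β * b + z) (fun w hw => hw.2.2.2) (fun w hw => hw.2.1)
        · rintro w ⟨e1, e2, e3, e4⟩
          exact ⟨e1, e2, by linarith, by linarith⟩
        · rintro w ⟨e1, e2, e3, e4, e5⟩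
          exact ⟨e1, e3, e4, e5⟩
      · rcases hm with hm | ⟨y, m', hm, hy⟩
        · exact Or.inl hm
        · refine Or.inr ⟨y, m', hm, ?_⟩
          have hyL : y ∈ L := by rw [hrm, hm]; simp
          have hy0 : 0 < y := hpos y (by simp [hyL])
          have hyz : y ≤ z := hs1 y hyL
          rw [sqs_cons]
          have e1 : 0 ≤ (z - y) * ((2 - β) * z - β * y) := by
            apply mul_nonneg (by linarith)
            nlinarith
          nlinarith
    · refine ⟨[], z :: L, rfl, Pack.nil _, Or.inr ⟨z, L, rfl, ?_⟩⟩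
      push Not at hfit
      rw [sqs_nil]
      have e1 : 0 ≤ β * z ^ 2 := by positivity
      have e2 : 2 * z * (S - β * b - P) ≤ 2 * z * z := by
        apply mul_le_mul_of_nonneg_left _ (by linarith)
        linarith
      nlinarith

lemma TrapR_eq : TrapR β u v 0 0 1 1 = Trp β u v := by
  ext z
  simp only [TrapR, Trp, mem_setOf_eq]
  constructor
  · rintro ⟨h1, h2, h3, h4⟩
    exact ⟨h1, h2, by linarith, by linarith⟩
  · rintro ⟨h1, h2, h3, h4⟩
    exact ⟨h1, h2, by linarith, by linarith⟩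

/-- The main packing theorem for trapezoids. -/
theorem pack_main (hd : det u v ≠ 0) (hβ0 : 0 ≤ β) (hβ1 : β ≤ 1) (y1 y2 : ℝ) (L : List ℝ)
    (hs : (y1 :: y2 :: L).Pairwise (fun a b => b ≤ a)) (hpos : ∀ c ∈ y1 :: y2 :: L, 0 < c)
    (h12 : y1 + y2 ≤ 1) (hsum : sqs (y1 :: y2 :: L) ≤ 1 / 2 + (1 - β) / 200) :
    Pack (Trp β u v) (Trp β u v) (y1 :: y2 :: L) := by
  have hy1 : 0 < y1 := hpos y1 (by simp)
  have hy2 : 0 < y2 := hpos y2 (by simp)
  rw [List.pairwise_cons, List.pairwise_cons] at hs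
  obtain ⟨hs1, hs2, hs3⟩ := hs
  have hy21 : y2 ≤ y1 := hs1 y2 (by simp)
  obtain ⟨r, m, hrm, hp, hm⟩ := rowI hd hβ0 hβ1 L hs3 (fun c hc => hpos c (by simp [hc]))
    (y1 + (1 - β) * y2) 0 y1 1 (fun c hc => hs1 c (by simp [hc]))
  have hβy2 : β * y2 ≤ y2 := by nlinarith
  have hβy20 : 0 ≤ β * y2 := by positivity
  have hc1 := copy_upT (β := β) hd hy1 0 0
  have hc2 := copy_downT (β := β) hd hy2 (y1 + (1 - β) * y2) 0
  have hb2 : ∀ z ∈ DownT β u v (y1 + (1 - β) * y2) 0 y2, 0 ≤ fx u v z ∧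
      fx u v z ≤ y1 + (1 - β) * y2 ∧ y1 ≤ fx u v z + β * fy u v z ∧ 0 ≤ fy u v z ∧
      fy u v z ≤ y1 ∧ fx u v z + β * fy u v z ≤ 1 := by
    rintro z ⟨h1, h2, h3, h4⟩
    have h5 := mul_le_mul_of_nonneg_left h3 hβ0
    refine ⟨by linarith, by linarith, by linarith, by linarith, by linarith, by linarith⟩
  -- the first row
  have hrow : Pack (Trp β u v) {z | 0 ≤ fx u v z ∧ 0 ≤ fy u v z ∧ fy u v z ≤ y1 ∧
      fx u v z + β * fy u v z ≤ 1} (y1 :: y2 :: r) := by
    have hR : Pack (Trp β u v) {z | 0 ≤ fx u v z ∧ y1 ≤ fx u v z + β * fy u v z ∧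
        0 ≤ fy u v z ∧ fy u v z ≤ y1 ∧ fx u v z + β * fy u v z ≤ 1} (y2 :: r) := by
      apply Pack.cons hc2 hp
      · exact sepX hd (y1 + (1 - β) * y2) (fun z hz => (hb2 z hz).2.1) (fun z hz => hz.1)
      · intro z hz
        obtain ⟨e1, e2, e3, e4, e5, e6⟩ := hb2 z hz
        exact ⟨e1, e3, e4, e5, e6⟩
      · rintro z ⟨e1, e2, e3, e4⟩
        have h0 : 0 ≤ (1 - β) * y2 := mul_nonneg (by linarith) hy2.le
        have h1 : 0 ≤ β * fy u v z := mul_nonneg hβ0 e2
        exact ⟨by linarith, by linarith, e2, by linarith, e4⟩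
    apply Pack.cons hc1 hR
    · exact sepB hd y1 (fun z hz => by linarith [hz.2.2.2]) (fun z hz => hz.2.1)
    · rintro z ⟨e1, e2, e3, e4⟩
      exact ⟨e1, e2, by linarith, by linarith⟩
    · rintro z ⟨e1, e2, e3, e4, e5⟩
      exact ⟨e1, e3, e4, e5⟩
  rcases hm with hm | ⟨y, m', hm, hy⟩
  · subst hm
    rw [List.append_nil] at hrm
    subst hrm
    apply hrow.mono
    rintro z ⟨e1, e2, e3, e4⟩
    exact ⟨e1, e2, by linarith, e4⟩
  · have hyL : y ∈ L := by rw [hrm, hm]; simp
    have hy0 : 0 < y := hpos y (by simp [hyL])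
    have hy2' : y ≤ y2 := hs2 y hyL
    rw [sqs_cons, sqs_cons, hrm, sqs_append] at hsum
    have hr0 := sqs_nonneg r
    have hm0 := sqs_nonneg m'
    have hmy : sqs m = y ^ 2 + sqs m' := by rw [hm, sqs_cons]
    -- `y ≤ 0.411`
    have hyy : y ^ 2 ≤ 0.1685 := by nlinarith
    have hy41 : y ≤ 0.411 := by nlinarith
    have hq : (1 - β) / 100 ≤ 2 * (1 - β) * (1 / 2 - y) ^ 2 := by
      have h1 : (0.089 : ℝ) ^ 2 ≤ (1 / 2 - y) ^ 2 :=
        pow_le_pow_left₀ (by norm_num) (by linarith) 2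
      have h2 : 0 ≤ 1 - β := by linarith
      nlinarith
    have hδ : (2 - β) * ((1 - β) / 200) ≤ (1 - β) / 100 := by
      have h2 : 0 ≤ 1 - β := by linarith
      nlinarith
    have hpm : Pack (Trp β u v) (TrapR β u v 0 y1 (1 - β * y1) (1 - y1)) m := by
      apply rowsT hd hβ0 hβ1 m.length m le_rfl
      · rw [hrm, List.pairwise_append] at hs3
        exact hs3.2.1
      · intro c hc
        exact hpos c (by rw [hrm]; simp [hc])
      · nlinarith
      · intro y' L' he
        have : y' = y := by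
          rw [hm] at he
          exact (List.cons.inj he).1.symm
        subst this
        refine ⟨by linarith, ?_⟩
        have e1 : 0 ≤ (y2 - y') * ((2 - β) * y2 + β * y') := by
          apply mul_nonneg (by linarith)
          have : 0 ≤ (2 - β) * y2 := mul_nonneg (by linarith) hy2.le
          have : 0 ≤ β * y' := mul_nonneg hβ0 hy0.le
          linarith
        have e2 : (2 - β) * (y1 ^ 2 + (y2 ^ 2 + (sqs r + sqs m))) ≤
            (2 - β) * (1 / 2 + (1 - β) / 200) := mul_le_mul_of_nonneg_left hsum (by linarith)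
        nlinarith [sq_nonneg (y1 - 1 / 2)]
    rw [hrm, ← List.cons_append, ← List.cons_append]
    apply Pack.append hrow hpm
    · exact sepY hd y1 (fun z hz => hz.2.2.1) (fun z hz => hz.2.1)
    · rintro z ⟨e1, e2, e3, e4⟩
      exact ⟨e1, e2, by linarith, e4⟩
    · rintro z ⟨e1, e2, e3, e4⟩
      exact ⟨e1, by linarith, by linarith, by linarith⟩

lemma Trp_par (hd : det u v ≠ 0) (hβ0 : 0 ≤ β) : Trp β u v ⊆ Par 0 u v := by
  rintro z ⟨h1, h2, h3, h4⟩
  have : 0 ≤ β * fy u v z := mul_nonneg hβ0 h2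
  rw [sq_mem hd]
  exact ⟨h1, by linarith, h2, h3⟩

lemma Trp_closed : IsClosed (Trp β u v) := by
  apply IsClosed.inter
  · exact isClosed_le continuous_const (fx u v).continuous
  · apply IsClosed.inter
    · exact isClosed_le continuous_const (fy u v).continuous
    · apply IsClosed.inter
      · exact isClosed_le (fy u v).continuous continuous_const
      · exact isClosed_le ((fx u v).continuous.add (continuous_const.mul (fy u v).continuous))
          continuous_const

lemma Trp_convex : Convex ℝ (Trp β u v) := by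
  rintro x ⟨h1, h2, h3, h4⟩ y ⟨k1, k2, k3, k4⟩ a b ha hb hab
  simp only [Trp, mem_setOf_eq, map_add, map_smul, smul_eq_mul]
  refine ⟨by positivity, by positivity, ?_, ?_⟩
  · have e1 := mul_le_mul_of_nonneg_left h3 ha
    have e2 := mul_le_mul_of_nonneg_left k3 hb
    linarith
  · have e1 := mul_le_mul_of_nonneg_left h4 ha
    have e2 := mul_le_mul_of_nonneg_left k4 hb
    nlinarith

lemma Trp_fig (hd : det u v ≠ 0) (hβ0 : 0 ≤ β) (hβ1 : β ≤ 1) : IsConvexFigure (Trp β u v) := by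
  refine ⟨?_, Trp_convex, ?_⟩
  · exact (sq_fig hd).1.of_isClosed_subset Trp_closed (Trp_par hd hβ0)
  · have ho : IsOpen {z : ℂ | 0 < fx u v z ∧ 0 < fy u v z ∧ fy u v z < 1 ∧
        fx u v z + β * fy u v z < 1} := by
      apply IsOpen.inter
      · exact isOpen_lt continuous_const (fx u v).continuous
      · apply IsOpen.inter
        · exact isOpen_lt continuous_const (fy u v).continuous
        · apply IsOpen.inter
          · exact isOpen_lt (fy u v).continuous continuous_const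
          · exact isOpen_lt ((fx u v).continuous.add (continuous_const.mul (fy u v).continuous))
              continuous_const
    refine ⟨((1 / 3 : ℝ) : ℂ) * u + ((1 / 3 : ℝ) : ℂ) * v, ?_⟩
    rw [mem_interior]
    refine ⟨_, ?_, ho, ?_⟩
    · rintro z ⟨h1, h2, h3, h4⟩
      exact ⟨h1.le, h2.le, h3.le, h4.le⟩
    · change 0 < fx u v _ ∧ 0 < fy u v _ ∧ fy u v _ < 1 ∧ fx u v _ + β * fy u v _ < 1
      rw [fx_comb hd, fy_comb hd]
      refine ⟨by norm_num, by norm_num, by norm_num, ?_⟩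
      nlinarith

theorem shape_trp (hd : det u v ≠ 0) (hβ0 : 0 ≤ β) (hβ1 : β < 1) : Shape u v (Trp β u v) := by
  refine ⟨hd, Trp_fig hd hβ0 hβ1.le, ?_, ?_, ?_, ?_, ?_, ?_⟩
  · rintro z ⟨h1, h2, h3, h4⟩
    have : 0 ≤ β * fy u v z := mul_nonneg hβ0 h2
    exact ⟨h1, h2, by linarith, h3⟩
  · simp [Trp]
  · simp only [Trp, mem_setOf_eq, fx_u hd, fy_u hd]
    norm_num
  · simp only [Trp, mem_setOf_eq, fx_v hd, fy_v hd]
    refine ⟨le_rfl, zero_le_one, le_rfl, by linarith⟩
  · intro η hη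
    refine ⟨min ((1 - β) / 200) (η ^ 2), lt_min (by linarith) (by positivity), ?_⟩
    intro L hs hpos hsum
    have d1 : min ((1 - β) / 200) (η ^ 2) ≤ (1 - β) / 200 := min_le_left _ _
    have d2 : min ((1 - β) / 200) (η ^ 2) ≤ η ^ 2 := min_le_right _ _
    cases L with
    | nil => exact Or.inl (Pack.nil _)
    | cons y1 L =>
      have hy1 : 0 < y1 := hpos y1 (by simp)
      have hL0 := sqs_nonneg L
      have hy11 : y1 ≤ 1 := by
        rw [sqs_cons] at hsum
        nlinarith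
      cases L with
      | nil =>
        left
        apply Pack.single (copy_upT (β := β) hd hy1 0 0)
        rintro z ⟨e1, e2, e3, e4⟩
        exact ⟨e1, e2, by linarith, by linarith⟩
      | cons y2 L =>
        have hy2 : 0 < y2 := hpos y2 (by simp)
        by_cases h12 : y1 + y2 ≤ 1
        · exact Or.inl (pack_main hd hβ0 hβ1.le y1 y2 L hs hpos h12 (by linarith))
        · push Not at h12
          rw [sqs_cons, sqs_cons] at hsum
          have h0 := sqs_nonneg L
          refine Or.inr ⟨y1, y2, L, rfl, ?_, ?_⟩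
          · refine abs_lt_of_sq_lt_sq ?_ hη.le
            nlinarith [sq_nonneg (y2 - 1 / 2)]
          · refine abs_lt_of_sq_lt_sq ?_ hη.le
            nlinarith [sq_nonneg (y1 - 1 / 2)]
  · intro κ a hκ L hs hpos hsum
    have h1 := rowsT hd hβ0 hβ1.le L.length L le_rfl hs hpos (fx u v a) (fy u v a) κ κ le_rfl (by
      intro y L' he
      subst he
      have hy : 0 < y := hpos y (by simp)
      have h0 := sqs_nonneg L'
      have hyk : y ≤ κ := by
        rw [sqs_cons] at hsum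
        nlinarith
      refine ⟨hyk, ?_⟩
      have e1 : sqs (y :: L') ≤ y ^ 2 + (κ - y) ^ 2 := by
        nlinarith [sq_nonneg (2 * y - κ)]
      have e2 : (κ - y) * (2 * κ - β * κ - (2 - β) * y) = (2 - β) * (κ - y) ^ 2 := by ring
      rw [e2, ← mul_add]
      exact mul_le_mul_of_nonneg_left e1 (by linarith))
    refine h1.mono ?_
    rintro z ⟨h2, h3, h4, h5⟩
    refine ⟨z - a, ?_, by simp⟩
    rw [mem_smul_Trp hκ, map_sub, map_sub]
    exact ⟨by linarith, by linarith, by linarith, by linarith⟩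

end Pool.Agent.H45.Trap
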